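import Mathlib

/-!
# Clique minors in arc graphs of digraphs

The arc graph of a digraph `D` (also called line digraph; for a transitive tournament it is the shift
graph) has the arcs of `D` as vertices, and two arcs are adjacent if the head of one of them is the tail
of the other.

We show that an arc graph which is not `k`-colourable, `k ≥ 2`, has a clique minor with
`⌊(C(k, ⌊k/2⌋) + 6) / 4⌋` branch sets.  So arc graphs satisfy the off-by-one form of Hadwiger's
conjecture for `k ≥ 6`, and the conjecture itself for `k ≥ 7`.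

Proof.  If `D` has a colouring with `C(k, ⌊k/2⌋)` colours, give every colour a `⌊k/2⌋`-subset of
`{1, …, k}` and colour an arc by an element of the set of its tail which is not in the set of its head;
this is a colouring of the arc graph (Harner and Entringer).  So `D` has no such colouring.  If every
vertex of `D` had at most `s` out-neighbours or at most `s` in-neighbours, then `D` would be
`(4 s + 2)`-colourable, since a digraph with all out-degrees at most `s` is `2 s`-degenerate.  So some
vertex has at least `s + 1` out-neighbours and `s + 1` in-neighbours, where `4 s + 2 ≤ C(k, ⌊k/2⌋)`, and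
the arcs at this vertex give a complete bipartite subgraph and a clique minor with `s + 2` branch sets.
-/

set_option autoImplicit false

namespace Pool.Agent.Results.MP_b47bfb_co.ArcGraphs

/-- `K_k` is a minor of `G`. -/
def HasCliqueMinor {W : Type} (G : SimpleGraph W) (k : ℕ) : Prop :=
  ∃ f : Fin k → Set W,
    (∀ i, (G.induce (f i)).Connected) ∧
    (∀ i j, i ≠ j → Disjoint (f i) (f j)) ∧
    (∀ i j, i ≠ j → ∃ u ∈ f i, ∃ v ∈ f j, G.Adj u v)

/-- The arc graph of the digraph with the arcs `(u, v)`, `A u v`: the vertices are the arcs, and two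
different arcs are adjacent if the head of one of them is the tail of the other. -/
def arcGraph {V : Type} (A : V → V → Prop) : SimpleGraph {p : V × V // A p.1 p.2} where
  Adj p q := p ≠ q ∧ (p.1.2 = q.1.1 ∨ q.1.2 = p.1.1)
  symm := ⟨fun _ _ h => ⟨h.1.symm, h.2.symm⟩⟩
  loopless := ⟨fun _ h => h.1 rfl⟩

/-- the underlying graph -/
def und {V : Type} (A : V → V → Prop) : SimpleGraph V where
  Adj u v := u ≠ v ∧ (A u v ∨ A v u)
  symm := ⟨fun _ _ h => ⟨h.1.symm, h.2.symm⟩⟩
  loopless := ⟨fun _ h => h.1 rfl⟩

theorem arc_colorable {V : Type} (A : V → V → Prop) (hA : ∀ v, ¬ A v v) (k : ℕ)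
    (h : (und A).Colorable (k.choose (k / 2))) : (arcGraph A).Colorable k := by
  classical
  obtain ⟨c⟩ := h
  have hcard : Fintype.card {S : Finset (Fin k) // S.card = k / 2} = k.choose (k / 2) := by
    rw [Fintype.card_finset_len, Fintype.card_fin]
  let e : Fin (k.choose (k / 2)) ≃ {S : Finset (Fin k) // S.card = k / 2} :=
    Fintype.equivOfCardEq (by rw [hcard, Fintype.card_fin])
  have hex : ∀ p : {p : V × V // A p.1 p.2}, ∃ i, i ∈ (e (c p.1.1)).1 ∧ i ∉ (e (c p.1.2)).1 := by
    rintro ⟨⟨u, v⟩, huv⟩
    by_contra hcon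
    push Not at hcon
    have hsub : (e (c u)).1 ⊆ (e (c v)).1 := fun i hi => hcon i hi
    have heq : (e (c u)).1 = (e (c v)).1 :=
      Finset.eq_of_subset_of_card_le hsub (by rw [(e (c u)).2, (e (c v)).2])
    have hcc : c u = c v := e.injective (Subtype.ext heq)
    have hne : u ≠ v := by
      rintro rfl
      exact hA u huv
    exact c.valid (show (und A).Adj u v from ⟨hne, Or.inl huv⟩) hcc
  choose g hg1 hg2 using hex
  refine ⟨SimpleGraph.Coloring.mk g ?_⟩
  intro p q hpq heq
  rcases hpq.2 with h | h
  · apply hg2 p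
    rw [heq, h]
    exact hg1 q
  · apply hg2 q
    rw [← heq, h]
    exact hg1 p

/-- a digraph with all out-degrees at most `s` inside `X` is `(2 s + 1)`-colourable inside `X` -/
theorem color_out {V : Type} [Fintype V] [DecidableEq V] (A : V → V → Prop) [DecidableRel A] (s : ℕ)
    (X : Finset V)
    (hX : ∀ v ∈ X, (X.filter (fun w => A v w)).card ≤ s) :
    ∃ c : V → Fin (2 * s + 1), ∀ u ∈ X, ∀ v ∈ X, u ≠ v → A u v → c u ≠ c v := by
  induction hn : X.card using Nat.strong_induction_on generalizing X with
  | _ n ih =>
    rcases X.eq_empty_or_nonempty with rfl | hne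
    · exact ⟨fun _ => 0, fun u hu => by simp at hu⟩
    · -- a vertex of small degree
      have hsum : ∑ v ∈ X, ((X.filter (fun w => A v w)).card + (X.filter (fun w => A w v)).card) ≤
          ∑ _v ∈ X, 2 * s := by
        rw [Finset.sum_add_distrib]
        have h1 : ∑ v ∈ X, (X.filter (fun w => A w v)).card =
            ∑ v ∈ X, (X.filter (fun w => A v w)).card := by
          simp only [Finset.card_filter]
          rw [Finset.sum_comm]
        rw [h1]
        have h2 : ∑ v ∈ X, (X.filter (fun w => A v w)).card ≤ ∑ _v ∈ X, s :=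
          Finset.sum_le_sum hX
        calc _ ≤ ∑ _v ∈ X, s + ∑ _v ∈ X, s := Nat.add_le_add h2 h2
          _ = _ := by rw [← Finset.sum_add_distrib]; simp [two_mul]
      obtain ⟨v, hv, hdeg⟩ := Finset.exists_le_of_sum_le hne hsum
      obtain ⟨c, hc⟩ := ih (X.erase v).card (by rw [← hn]; exact Finset.card_erase_lt_of_mem hv)
        (X.erase v) (fun u hu => by
          refine le_trans (Finset.card_le_card ?_) (hX u (Finset.mem_of_mem_erase hu))
          exact Finset.filter_subset_filter _ (Finset.erase_subset _ _)) rfl
      -- a free colour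
      have hfree : ∃ a : Fin (2 * s + 1), a ∉ ((X.filter (fun w => A v w)) ∪
          (X.filter (fun w => A w v))).image c := by
        by_contra hcon
        push Not at hcon
        have h1 : Fintype.card (Fin (2 * s + 1)) ≤ (((X.filter (fun w => A v w)) ∪
            (X.filter (fun w => A w v))).image c).card := by
          rw [← Finset.card_univ]
          exact Finset.card_le_card (fun a _ => hcon a)
        rw [Fintype.card_fin] at h1
        have h2 := (Finset.card_image_le (s := (X.filter (fun w => A v w)) ∪
            (X.filter (fun w => A w v))) (f := c))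
        have h3 := Finset.card_union_le (X.filter (fun w => A v w)) (X.filter (fun w => A w v))
        omega
      obtain ⟨a, ha⟩ := hfree
      simp only [Finset.mem_image, Finset.mem_union, Finset.mem_filter, not_exists, not_and] at ha
      refine ⟨Function.update c v a, ?_⟩
      intro x hx y hy hxy hAxy
      by_cases hxv : x = v
      · subst hxv
        rw [Function.update_self, Function.update_of_ne (Ne.symm hxy)]
        exact fun h => ha y (Or.inl ⟨hy, hAxy⟩) h.symm
      · by_cases hyv : y = v
        · subst hyv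
          rw [Function.update_self, Function.update_of_ne hxy]
          exact fun h => ha x (Or.inr ⟨hx, hAxy⟩) h
        · rw [Function.update_of_ne hxv, Function.update_of_ne hyv]
          exact hc x (Finset.mem_erase.2 ⟨hxv, hx⟩) y (Finset.mem_erase.2 ⟨hyv, hy⟩) hxy hAxy

theorem und_colorable {V : Type} [Fintype V] [DecidableEq V] (A : V → V → Prop) [DecidableRel A]
    (s : ℕ) (h : ∀ v, (Finset.univ.filter (fun w => A v w)).card ≤ s ∨
      (Finset.univ.filter (fun w => A w v)).card ≤ s) : (und A).Colorable (4 * s + 2) := by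
  classical
  let X : Finset V := Finset.univ.filter
    (fun v => (Finset.univ.filter (fun w => A v w)).card ≤ s)
  let Y : Finset V := Finset.univ.filter
    (fun v => ¬ (Finset.univ.filter (fun w => A v w)).card ≤ s)
  obtain ⟨c, hc⟩ := color_out A s X (by
    intro v hv
    have hv' := (Finset.mem_filter.1 hv).2
    exact le_trans (Finset.card_le_card
      (Finset.filter_subset_filter _ (Finset.subset_univ _))) hv')
  obtain ⟨d, hd⟩ := color_out (fun u v => A v u) s Y (by
    intro v hv
    have hv' := (Finset.mem_filter.1 hv).2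
    have hv'' := (h v).resolve_left hv'
    exact le_trans (Finset.card_le_card
      (Finset.filter_subset_filter _ (Finset.subset_univ _))) hv'')
  have hcol : (und A).Coloring (Fin (2 * s + 1) ⊕ Fin (2 * s + 1)) :=
    SimpleGraph.Coloring.mk (fun v => if v ∈ X then Sum.inl (c v) else Sum.inr (d v)) (by
      intro u v huv heq
      have hY : ∀ w, w ∉ X → w ∈ Y := by
        intro w hw
        exact Finset.mem_filter.2 ⟨Finset.mem_univ _, fun h1 =>
          hw (Finset.mem_filter.2 ⟨Finset.mem_univ _, h1⟩)⟩
      by_cases hu : u ∈ X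
      · by_cases hv : v ∈ X
        · simp only [hu, hv, if_true, Sum.inl.injEq] at heq
          rcases huv.2 with h1 | h1
          · exact hc u hu v hv huv.1 h1 heq
          · exact hc v hv u hu huv.1.symm h1 heq.symm
        · simp [hu, hv] at heq
      · by_cases hv : v ∈ X
        · simp [hu, hv] at heq
        · simp only [hu, hv, if_false, Sum.inr.injEq] at heq
          rcases huv.2 with h1 | h1
          · exact hd v (hY v hv) u (hY u hu) huv.1.symm h1 heq.symm
          · exact hd u (hY u hu) v (hY v hv) huv.1 h1 heq)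
  have h5 := hcol.colorable
  rw [Fintype.card_sum, Fintype.card_fin] at h5
  exact h5.mono (by omega)

theorem conn_pair {W : Type} (G : SimpleGraph W) (x y : W) (h : x = y ∨ G.Adj x y) :
    (G.induce ({x, y} : Set W)).Connected := by
  rcases h with rfl | h
  · have : ({x, x} : Set W) = {x} := by simp
    rw [this]
    have : Subsingleton ({x} : Set W) := by infer_instance
    refine ⟨?_⟩
    intro a b
    rw [Subsingleton.elim a b]
  · exact SimpleGraph.induce_pair_connected_of_adj h

/-- a vertex with `s + 1` in-neighbours and `s + 1` out-neighbours gives `s + 2` branch sets -/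
theorem minor_of_vertex {V : Type} (A : V → V → Prop) (hA : ∀ v, ¬ A v v) (s : ℕ) (j : V)
    (x y : Fin (s + 1) → V) (hx : Function.Injective x) (hy : Function.Injective y)
    (hxA : ∀ i, A (x i) j) (hyA : ∀ i, A j (y i)) : HasCliqueMinor (arcGraph A) (s + 2) := by
  classical
  let e : Fin (s + 1) → {p : V × V // A p.1 p.2} := fun i => ⟨(x i, j), hxA i⟩
  let f : Fin (s + 1) → {p : V × V // A p.1 p.2} := fun i => ⟨(j, y i), hyA i⟩
  have hef : ∀ a b, (arcGraph A).Adj (e a) (f b) := by
    intro a b
    refine ⟨?_, Or.inl rfl⟩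
    intro h
    have h1 : x a = j := congrArg (fun p => p.1.1) h
    apply hA j
    have := hxA a
    rwa [h1] at this
  have he : Function.Injective e := fun a b h => hx (congrArg (fun p => p.1.1) h)
  have hf : Function.Injective f := fun a b h => hy (congrArg (fun p => p.1.2) h)
  have hne : ∀ a b, e a ≠ f b := fun a b => (hef a b).1
  -- the branch sets
  let a : Fin (s + 2) → Option (Fin (s + 1)) := fun i => if h : i.1 ≤ s then some ⟨i.1, by omega⟩ else none
  let B : Fin (s + 2) → Set {p : V × V // A p.1 p.2} := fun i =>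
    if h : i.1 = 0 then {e 0, e 0} else
      if h' : i.1 ≤ s then {e ⟨i.1, by omega⟩, f ⟨i.1, by omega⟩} else {f 0, f 0}
  have hB0 : ∀ i : Fin (s + 2), i.1 = 0 → B i = {e 0, e 0} := fun i h => by simp only [B, h, dif_pos]
  have hB1 : ∀ (i : Fin (s + 2)) (h : i.1 ≠ 0) (h' : i.1 ≤ s),
      B i = {e ⟨i.1, by omega⟩, f ⟨i.1, by omega⟩} := fun i h h' => by
    simp only [B, dif_neg h, dif_pos h']
  have hB2 : ∀ (i : Fin (s + 2)), i.1 = s + 1 → B i = {f 0, f 0} := fun i h => by
    have h1 : i.1 ≠ 0 := by omega
    have h2 : ¬ i.1 ≤ s := by omega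
    simp only [B, dif_neg h1, dif_neg h2]
  have hcases : ∀ i : Fin (s + 2), i.1 = 0 ∨ (i.1 ≠ 0 ∧ i.1 ≤ s) ∨ i.1 = s + 1 := by
    intro i
    have := i.2
    omega
  -- it is enough to treat `i < j`
  have hdisj : ∀ i i' : Fin (s + 2), i.1 < i'.1 → Disjoint (B i) (B i') := by
    intro i i' hii
    rw [Set.disjoint_left]
    rcases hcases i with h | ⟨h, h'⟩ | h
    · rw [hB0 i h]
      rcases hcases i' with g | ⟨g, g'⟩ | g
      · omega
      · rw [hB1 i' g g']
        rintro p hp hq
        simp only [Set.mem_insert_iff, Set.mem_singleton_iff, or_self] at hp hq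
        subst hp
        rcases hq with hq | hq
        · have := congrArg Fin.val (he hq)
          simp at this
          omega
        · exact hne _ _ hq
      · rw [hB2 i' g]
        rintro p hp hq
        simp only [Set.mem_insert_iff, Set.mem_singleton_iff, or_self] at hp hq
        subst hp
        exact hne _ _ hq
    · rw [hB1 i h h']
      rcases hcases i' with g | ⟨g, g'⟩ | g
      · omega
      · rw [hB1 i' g g']
        rintro p hp hq
        simp only [Set.mem_insert_iff, Set.mem_singleton_iff] at hp hq
        rcases hp with hp | hp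
        · subst hp
          rcases hq with hq | hq
          · have := congrArg Fin.val (he hq)
            simp at this
            omega
          · exact hne _ _ hq
        · subst hp
          rcases hq with hq | hq
          · exact hne _ _ hq.symm
          · have := congrArg Fin.val (hf hq)
            simp at this
            omega
      · rw [hB2 i' g]
        rintro p hp hq
        simp only [Set.mem_insert_iff, Set.mem_singleton_iff, or_self] at hp hq
        rcases hp with hp | hp
        · subst hp
          exact hne _ _ hq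
        · subst hp
          have h9 : i.1 = 0 := congrArg Fin.val (hf hq)
          omega
    · omega
  have hadj : ∀ i i' : Fin (s + 2), i.1 < i'.1 → ∃ u ∈ B i, ∃ v ∈ B i', (arcGraph A).Adj u v := by
    intro i i' hii
    have hu : ∃ a, e a ∈ B i := by
      rcases hcases i with h | ⟨h, h'⟩ | h
      · exact ⟨0, by rw [hB0 i h]; simp⟩
      · exact ⟨⟨i.1, by omega⟩, by rw [hB1 i h h']; simp⟩
      · omega
    have hv : ∃ b, f b ∈ B i' := by
      rcases hcases i' with h | ⟨h, h'⟩ | h
      · omega
      · exact ⟨⟨i'.1, by omega⟩, by rw [hB1 i' h h']; simp⟩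
      · exact ⟨0, by rw [hB2 i' h]; simp⟩
    obtain ⟨a, ha⟩ := hu
    obtain ⟨b, hb⟩ := hv
    exact ⟨_, ha, _, hb, hef a b⟩
  refine ⟨B, ?_, ?_, ?_⟩
  · intro i
    rcases hcases i with h | ⟨h, h'⟩ | h
    · rw [hB0 i h]
      exact conn_pair _ _ _ (Or.inl rfl)
    · rw [hB1 i h h']
      exact conn_pair _ _ _ (Or.inr (hef _ _))
    · rw [hB2 i h]
      exact conn_pair _ _ _ (Or.inl rfl)
  · intro i i' hii
    rcases lt_or_gt_of_ne (fun h => hii (Fin.ext h) : i.1 ≠ i'.1) with h | h
    · exact hdisj i i' h
    · exact (hdisj i' i h).symm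
  · intro i i' hii
    rcases lt_or_gt_of_ne (fun h => hii (Fin.ext h) : i.1 ≠ i'.1) with h | h
    · exact hadj i i' h
    · obtain ⟨u, hu, v, hv, huv⟩ := hadj i' i h
      exact ⟨v, hv, u, hu, huv.symm⟩

theorem minor_mono {W : Type} (G : SimpleGraph W) {m n : ℕ} (hmn : m ≤ n)
    (h : HasCliqueMinor G n) : HasCliqueMinor G m := by
  obtain ⟨f, h1, h2, h3⟩ := h
  refine ⟨fun i => f (Fin.castLE hmn i), fun i => h1 _, fun i j hij => h2 _ _ ?_,
    fun i j hij => h3 _ _ ?_⟩
  · exact fun h => hij (Fin.castLE_injective hmn h)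
  · exact fun h => hij (Fin.castLE_injective hmn h)

theorem main {V : Type} [Finite V] (A : V → V → Prop) (hA : ∀ v, ¬ A v v) (k : ℕ) (hk : 2 ≤ k)
    (hcol : ¬ (arcGraph A).Colorable k) :
    HasCliqueMinor (arcGraph A) ((k.choose (k / 2) + 6) / 4) := by
  classical
  have : Fintype V := Fintype.ofFinite V
  obtain ⟨C, hC⟩ : ∃ C, C = k.choose (k / 2) := ⟨_, rfl⟩
  have hC2 : 2 ≤ C := by
    rw [hC]
    calc 2 ≤ k := hk
      _ = k.choose 1 := (Nat.choose_one_right k).symm
      _ ≤ _ := Nat.choose_le_middle 1 k
  rw [← hC]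
  obtain ⟨s, hs⟩ : ∃ s, s = (C - 2) / 4 := ⟨_, rfl⟩
  have h1 : ¬ (und A).Colorable (4 * s + 2) := by
    intro h
    apply hcol
    apply arc_colorable A hA k
    rw [← hC]
    exact h.mono (by omega)
  have h2 : ∃ v, s + 1 ≤ (Finset.univ.filter (fun w => A v w)).card ∧
      s + 1 ≤ (Finset.univ.filter (fun w => A w v)).card := by
    by_contra hcon
    push Not at hcon
    apply h1
    apply und_colorable A s
    intro v
    by_cases h : (Finset.univ.filter (fun w => A v w)).card ≤ s
    · exact Or.inl h
    · exact Or.inr (by have := hcon v (by omega); omega)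
  obtain ⟨j, hj1, hj2⟩ := h2
  have hex : ∀ S : Finset V, s + 1 ≤ S.card → ∃ x : Fin (s + 1) → V, Function.Injective x ∧
      ∀ i, x i ∈ S := by
    intro S hS
    obtain ⟨T, hTS, hT⟩ := Finset.exists_subset_card_eq hS
    refine ⟨fun i => T.equivFin.symm (Fin.cast hT.symm i), ?_, fun i => hTS (Finset.coe_mem _)⟩
    intro a b hab
    have := T.equivFin.symm.injective (Subtype.ext hab)
    simpa using this
  obtain ⟨y, hy, hyA⟩ := hex _ hj1
  obtain ⟨x, hx, hxA⟩ := hex _ hj2
  have h3 := minor_of_vertex A hA s j x y hx hy
    (fun i => (Finset.mem_filter.1 (hxA i)).2) (fun i => (Finset.mem_filter.1 (hyA i)).2)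
  exact minor_mono _ (by omega) h3

/-- Let `G` be the arc graph of a finite digraph (loopless; opposite arcs are allowed), and let `G` have
no proper colouring with `k` colours.
(1) If `k ≥ 2` then `K_t` is a minor of `G` for `t = ⌊(C(k, ⌊k/2⌋) + 6) / 4⌋`.
(2) If `k ≥ 6` then `K_k` is a minor of `G` (the off-by-one form of Hadwiger's conjecture).
(3) If `k ≥ 7` then `K_{k+1}` is a minor of `G` (Hadwiger's conjecture). -/
theorem result (V : Type) [Finite V] (A : V → V → Prop) (hA : ∀ v, ¬ A v v) (k : ℕ)
    (hcol : ¬ (arcGraph A).Colorable k) :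
    (2 ≤ k → HasCliqueMinor (arcGraph A) ((k.choose (k / 2) + 6) / 4)) ∧
    (6 ≤ k → HasCliqueMinor (arcGraph A) k) ∧
    (7 ≤ k → HasCliqueMinor (arcGraph A) (k + 1)) := by
  have hbig : 7 ≤ k → 4 * k - 2 ≤ k.choose (k / 2) := by
    intro hk
    rcases Nat.lt_or_ge k 9 with h | h
    · interval_cases k
      · decide
      · decide
    · have h1 : k.choose 2 ≤ k.choose (k / 2) := Nat.choose_le_middle 2 k
      refine le_trans ?_ h1
      rw [Nat.choose_two_right, Nat.le_div_iff_mul_le (by norm_num)]
      obtain ⟨m, rfl⟩ : ∃ m, k = m + 9 := ⟨k - 9, by omega⟩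
      have e1 : 4 * (m + 9) - 2 = 4 * m + 34 := by omega
      have e2 : m + 9 - 1 = m + 8 := by omega
      rw [e1, e2]
      nlinarith
  refine ⟨fun hk => main A hA k hk hcol, fun hk => ?_, fun hk => ?_⟩
  · rcases Nat.lt_or_ge k 7 with h | h
    · obtain rfl : k = 6 := by omega
      exact main A hA 6 (by norm_num) hcol
    · have h2 := hbig h
      exact minor_mono _ (by omega) (main A hA k (by omega) hcol)
  · have h2 := hbig hk
    exact minor_mono _ (by omega) (main A hA k (by omega) hcol)

end Pool.Agent.Results.MP_b47bfb_co.ArcGraphs
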